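import Mathlib
import Pool.Agent.X217.FEProd

/-!
# Finite embeddability does not imply M-divisibility on the finite levels (MP_31068f_lc)

The ultrafilters `FF` (containing the primes) and `GG` (containing the products of two primes)
satisfy `FE FF GG` but not `MDiv FF GG`.
-/

namespace Pool.Agent.Results.MP_31068f_lc.FENotMDiv

open Pool.Agent.X217.FEProd

/-- The ultrafilters containing some level `Lev n`, the set of positive integers with exactly `n`
prime factors counted with multiplicity. -/
def L : Set (Ultrafilter ℕ+) := {F | ∃ n : ℕ, Lev n ∈ F}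

/-- There are `F, G ∈ L` with `F ≤_fe G` and not `F ∣_M G`. -/
theorem result : ∃ F G : Ultrafilter ℕ+, F ∈ L ∧ G ∈ L ∧ FE F G ∧ ¬ MDiv F G := by
  refine ⟨FF, GG, ⟨1, ?_⟩, ⟨2, Lev_two_mem⟩, FF_FE, fun h => ?_⟩
  · exact Filter.mem_of_superset FF_prime fun x hx => lev_one.2 hx
  · rcases mdiv_GG h with h | h
    · exact FF_ne_one h
    · exact FF_ne_GG h

end Pool.Agent.Results.MP_31068f_lc.FENotMDiv
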